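import Pool.Agent.Q197.NP.Final

/-! Voronoi cones of spherical codes. -/

set_option autoImplicit false

open MeasureTheory Metric Filter Topology Set
open Pool.Agent.Q197.NP (E vB vB_pos vol_ball)

namespace Pool.Agent.Q197.VC

variable {n : ℕ}

/-- The Voronoi cone of `x` with respect to `X` (the vectors `z` whose inner product with `x` is at
least the ones with all the members of `X`) is cut out by at most `F` members of `X`. -/
def FewNeighbours (X : Finset (EuclideanSpace ℝ (Fin n))) (x : EuclideanSpace ℝ (Fin n)) (F : ℕ) :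
    Prop :=
  ∃ S : Finset (EuclideanSpace ℝ (Fin n)), (∀ y ∈ S, y ∈ X ∧ y ≠ x) ∧ S.card ≤ F ∧
    ∀ z, (∀ y ∈ S, inner ℝ z y ≤ inner ℝ z x) → ∀ y ∈ X, inner ℝ z y ≤ inner ℝ z x

/-- a slab of a ball about `x` -/
def slab (ρ h : ℝ) (x : E n) : Set (E n) :=
  {z | z ∈ ball x ρ ∧ 0 ≤ inner ℝ (z - x) x ∧ inner ℝ (z - x) x < h}

lemma slab_meas (ρ h : ℝ) (x : E n) : MeasurableSet (slab ρ h x) := by
  have hc : Continuous fun z : E n => inner ℝ (z - x) x := by fun_prop
  have h1 : slab ρ h x = ball x ρ ∩ ({z | 0 ≤ inner ℝ (z - x) x} ∩ {z | inner ℝ (z - x) x < h}) := by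
    ext z; simp [slab]
  rw [h1]
  exact measurableSet_ball.inter ((isClosed_le continuous_const hc).measurableSet.inter
    (isOpen_lt hc continuous_const).measurableSet)

lemma slab_vol {ρ h : ℝ} (hρ : 0 < ρ) (hh : 0 < h) {x : E n} (hx : ‖x‖ = 1) :
    vB n * ρ ^ n ≤ 2 * ⌈ρ / h⌉₊ * volume.real (slab ρ h x) := by
  set H : Set (E n) := {z | z ∈ ball x ρ ∧ 0 ≤ inner ℝ (z - x) x} with hH
  have hballfin : ∀ A : Set (E n), A ⊆ ball x ρ → volume A ≠ ⊤ := fun A hA =>
    ((measure_mono hA).trans_lt measure_ball_lt_top).ne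
  -- half
  have h1 : volume.real (ball x ρ) ≤ 2 * volume.real H := by
    have hsub : ball x ρ ⊆ H ∪ (fun z => (x + x) - z) ⁻¹' H := by
      intro z hz
      by_cases h0 : 0 ≤ inner ℝ (z - x) x
      · left; exact ⟨hz, h0⟩
      · right
        refine ⟨?_, ?_⟩
        · rw [mem_ball, dist_eq_norm] at hz ⊢
          have : x + x - z - x = -(z - x) := by abel
          rw [this, norm_neg]
          exact hz
        · have : x + x - z - x = -(z - x) := by abel
          rw [this, inner_neg_left]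
          linarith
    have hmeasH : MeasurableSet H := by
      have hc : Continuous fun z : E n => inner ℝ (z - x) x := by fun_prop
      have : H = ball x ρ ∩ {z | 0 ≤ inner ℝ (z - x) x} := by ext z; simp [hH]
      rw [this]
      exact measurableSet_ball.inter (isClosed_le continuous_const hc).measurableSet
    have hpre : volume ((fun z => (x + x) - z) ⁻¹' H) = volume H :=
      (Measure.measurePreserving_sub_left volume (x + x)).measure_preimage
        hmeasH.nullMeasurableSet
    have h2 : volume.real (ball x ρ) ≤ volume.real H +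
        volume.real ((fun z => (x + x) - z) ⁻¹' H) := by
      refine (measureReal_mono hsub ?_).trans (measureReal_union_le _ _)
      refine (lt_of_le_of_lt (measure_union_le _ _) (ENNReal.add_lt_top.2 ⟨?_, ?_⟩)).ne
      · exact (hballfin H fun z hz => hz.1).lt_top
      · rw [hpre]; exact (hballfin H fun z hz => hz.1).lt_top
    rw [measureReal_def (s := (fun z => (x + x) - z) ⁻¹' H), hpre, ← measureReal_def] at h2
    linarith
  -- slices
  have h2 : volume.real H ≤ ⌈ρ / h⌉₊ * volume.real (slab ρ h x) := by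
    have hsub : H ⊆ ⋃ k ∈ Finset.range ⌈ρ / h⌉₊, (fun z => z + (-((k : ℝ) * h)) • x) ⁻¹' (slab ρ h x) := by
      rintro z ⟨hz, h0⟩
      set a := inner ℝ (z - x) x with ha
      rw [mem_ball, dist_eq_norm] at hz
      have haρ : a < ρ := by
        have := real_inner_le_norm (z - x) x
        rw [hx, mul_one] at this
        linarith
      rw [Set.mem_iUnion₂]
      refine ⟨⌊a / h⌋₊, ?_, ?_⟩
      · rw [Finset.mem_range]
        rw [Nat.floor_lt (by positivity)]
        calc a / h < ρ / h := by gcongr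
          _ ≤ _ := Nat.le_ceil _
      · have hk1 : (⌊a / h⌋₊ : ℝ) * h ≤ a := by
          have := Nat.floor_le (div_nonneg h0 hh.le)
          calc (⌊a / h⌋₊ : ℝ) * h ≤ a / h * h := by gcongr
            _ = a := by field_simp
        have hk2 : a < ((⌊a / h⌋₊ : ℝ) + 1) * h := by
          have := Nat.lt_floor_add_one (a / h)
          calc a = a / h * h := by field_simp
            _ < _ := by gcongr
        set k : ℝ := (⌊a / h⌋₊ : ℝ) with hk
        have hk0 : 0 ≤ k * h := by positivity
        have he : z + (-(k * h)) • x - x = (z - x) - (k * h) • x := by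
          rw [neg_smul]; abel
        have hin : inner ℝ (z + (-(k * h)) • x - x) x = a - k * h := by
          rw [he, inner_sub_left, inner_smul_left, real_inner_self_eq_norm_sq, hx]
          simp [ha]
        show _ ∈ slab ρ h x
        refine ⟨?_, ?_, ?_⟩
        · rw [mem_ball, dist_eq_norm, he]
          have h3 : ‖(z - x) - (k * h) • x‖ ^ 2 ≤ ‖z - x‖ ^ 2 := by
            rw [norm_sub_sq_real, inner_smul_right, norm_smul, Real.norm_eq_abs, hx,
              abs_of_nonneg hk0]
            nlinarith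
          have h4 : ‖(z - x) - (k * h) • x‖ ≤ ‖z - x‖ := by
            exact (sq_le_sq₀ (norm_nonneg _) (norm_nonneg _)).1 h3
          linarith
        · rw [hin]; linarith
        · rw [hin]; linarith
    have hpre : ∀ k : ℕ, volume ((fun z => z + (-((k : ℝ) * h)) • x) ⁻¹' (slab ρ h x)) =
        volume (slab ρ h x) := fun k => measure_preimage_add_right _ _ _
    have hslabfin := hballfin (slab ρ h x) fun z hz => hz.1
    have h3 : volume.real H ≤ volume.real (⋃ k ∈ Finset.range ⌈ρ / h⌉₊,
        (fun z => z + (-((k : ℝ) * h)) • x) ⁻¹' (slab ρ h x)) := by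
      have hfin : volume (⋃ k ∈ Finset.range ⌈ρ / h⌉₊,
          (fun z => z + (-((k : ℝ) * h)) • x) ⁻¹' (slab ρ h x)) ≠ ⊤ := by
        refine (lt_of_le_of_lt (measure_biUnion_finset_le _ _) ?_).ne
        refine ENNReal.sum_lt_top.2 fun v _ => ?_
        rw [hpre]
        exact hslabfin.lt_top
      exact measureReal_mono hsub hfin
    refine h3.trans ((measureReal_biUnion_finset_le _ _).trans ?_)
    have h4 : ∀ k ∈ Finset.range ⌈ρ / h⌉₊, volume.real ((fun z => z + (-((k : ℝ) * h)) • x) ⁻¹'
        (slab ρ h x)) = volume.real (slab ρ h x) := by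
      intro k _
      rw [measureReal_def, hpre, ← measureReal_def]
    rw [Finset.sum_congr rfl h4, Finset.sum_const, nsmul_eq_mul, Finset.card_range]
  rw [vol_ball x hρ] at h1
  nlinarith

/-- the points of the slab beyond a bisector lie in a smaller ball -/
lemma beyondS {x y z : E n} {κ t ρ : ℝ} (hx : ‖x‖ = 1) (hy : ‖y‖ = 1) (hκ1 : κ < 1)
    (hκ : -1 < κ) (ht : 0 < t) (htκ : t ^ 2 = (1 - κ) / (1 + κ)) (hxy : inner ℝ x y ≤ κ)
    (hz : ‖z - x‖ < ρ) (h0 : 0 ≤ inner ℝ (z - x) x) (h : inner ℝ z x < inner ℝ z y) :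
    ‖z - (x + (t / √(1 - (inner ℝ x y) ^ 2)) • (y - (inner ℝ x y : ℝ) • x))‖ ^ 2 ≤
      ρ ^ 2 - t ^ 2 := by
  set c : ℝ := inner ℝ x y with hc
  set v : E n := y - c • x with hv
  have hxx : inner ℝ x x = (1 : ℝ) := by rw [real_inner_self_eq_norm_sq, hx]; norm_num
  have hyy : inner ℝ y y = (1 : ℝ) := by rw [real_inner_self_eq_norm_sq, hy]; norm_num
  have hzx : 1 ≤ inner ℝ z x := by
    rw [inner_sub_left, hxx] at h0
    linarith
  have hxv : inner ℝ x v = (0 : ℝ) := by
    rw [hv, inner_sub_right, inner_smul_right, hxx, ← hc]; ring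
  have hzv : inner ℝ z v = inner ℝ z y - c * inner ℝ z x := by
    rw [hv, inner_sub_right, inner_smul_right]
  have hc1 : c < 1 := lt_of_le_of_lt hxy hκ1
  have hzv1 : 1 - c < inner ℝ z v := by
    rw [hzv]
    nlinarith
  have hvv : ‖v‖ ^ 2 = 1 - c ^ 2 := by
    rw [← real_inner_self_eq_norm_sq, hv, inner_sub_left, inner_sub_right, inner_sub_right,
      inner_smul_left, inner_smul_left, inner_smul_right, inner_smul_right, hxx, hyy,
      real_inner_comm x y, ← hc]
    simp
    ring
  have hvne : v ≠ 0 := by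
    intro h0
    rw [h0, inner_zero_right] at hzv1
    linarith
  have hvpos : 0 < 1 - c ^ 2 := by
    rw [← hvv]; positivity
  have hcm : -1 < c := by nlinarith
  have hsq : 0 < √(1 - c ^ 2) := Real.sqrt_pos.2 hvpos
  have hsq2 : √(1 - c ^ 2) ^ 2 = 1 - c ^ 2 := Real.sq_sqrt hvpos.le
  have he : z - (x + (t / √(1 - c ^ 2)) • v) = (z - x) - (t / √(1 - c ^ 2)) • v := by abel
  rw [he, norm_sub_sq_real, inner_smul_right, norm_smul, mul_pow, hvv, Real.norm_eq_abs,
    sq_abs, inner_sub_left, hxv, sub_zero]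
  have h1 : (t / √(1 - c ^ 2)) ^ 2 * (1 - c ^ 2) = t ^ 2 := by
    rw [div_pow, hsq2]; field_simp
  rw [h1]
  have h2 : t * √(1 - c ^ 2) ≤ 1 - c := by
    apply le_of_sq_le_sq (h := ?_) (by linarith)
    rw [mul_pow, hsq2, htκ]
    have h3 : (1 - κ) / (1 + κ) ≤ (1 - c) / (1 + c) := by
      rw [div_le_div_iff₀ (by linarith) (by linarith)]
      nlinarith
    calc (1 - κ) / (1 + κ) * (1 - c ^ 2) ≤ (1 - c) / (1 + c) * (1 - c ^ 2) := by gcongr
      _ = (1 - c) ^ 2 := by
        have : 1 + c ≠ 0 := by linarith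
        field_simp
        ring
  have h4 : t ^ 2 ≤ t / √(1 - c ^ 2) * inner ℝ z v := by
    calc t ^ 2 = t / √(1 - c ^ 2) * (t * √(1 - c ^ 2)) := by field_simp
      _ ≤ t / √(1 - c ^ 2) * (1 - c) := by gcongr
      _ ≤ _ := by gcongr
  have h5 : ‖z - x‖ ^ 2 ≤ ρ ^ 2 := by
    have := norm_nonneg (z - x)
    nlinarith
  nlinarith

end Pool.Agent.Q197.VC
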