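import Pool.Agent.Q197.VC.Code

/-! Rates of codes whose Voronoi cells are cut out by few codewords. -/

set_option autoImplicit false

open Finset Filter Topology

namespace Pool.Agent.Q197.VC

open Pool.Agent.Q197.NC (vol)

theorem asym {δ x a ε : ℝ} (hδ : 0 < δ) (hx0 : 0 < x) (hx1 : x < 1 / 2) (ha0 : 0 ≤ a)
    (ha : a < -(δ / 2) * Real.logb 2 (4 * x * (1 - x))) (hε : 0 < ε) :
    ∀ᶠ n : ℕ in atTop, ∀ C : Finset (Fin n → Bool),
      (∀ y ∈ C, ∀ z ∈ C, y ≠ z → δ * n ≤ hammingDist y z) →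
      ∀ f : (Fin n → Bool) → ℕ, (∀ y ∈ C, FewNeighbours C y (f y)) →
      ∑ y ∈ C, (f y : ℝ) ≤ (2 : ℝ) ^ (a * n) * C.card →
      (C.card : ℝ) ≤ (2 : ℝ) ^ ((1 - (-x * Real.logb 2 x - (1 - x) * Real.logb 2 (1 - x)) + ε) *
        n) := by
  have hl2 : 0 < Real.log 2 := Real.log_pos (by norm_num)
  have hH : -x * Real.logb 2 x - (1 - x) * Real.logb 2 (1 - x) =
      Real.binEntropy x / Real.log 2 := by
    rw [Real.binEntropy, Real.log_inv, Real.log_inv, Real.logb, Real.logb]
    ring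
  rw [hH]
  set γ := 2 * √(x * (1 - x)) with hγ
  have hxx : 0 < x * (1 - x) := mul_pos hx0 (by linarith)
  have hγ0 : 0 < γ := by positivity
  have hγ1 : γ < 1 := by
    have h2 : √(x * (1 - x)) < 1 / 2 := by
      rw [Real.sqrt_lt' (by norm_num)]
      nlinarith [sq_pos_of_pos (show 0 < 1 / 2 - x by linarith)]
    linarith
  have hlogγ : Real.logb 2 (4 * x * (1 - x)) = 2 * Real.logb 2 γ := by
    have : 4 * x * (1 - x) = γ ^ 2 := by
      rw [hγ, mul_pow, Real.sq_sqrt hxx.le]
      ring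
    rw [this, Real.logb_pow]
    norm_num
  rw [hlogγ] at ha
  set κ := -δ * Real.log γ - a * Real.log 2 with hκ
  have hκ0 : 0 < κ := by
    have h1 : a * Real.log 2 < -(δ / 2) * (2 * Real.logb 2 γ) * Real.log 2 :=
      mul_lt_mul_of_pos_right ha hl2
    have h2 : -(δ / 2) * (2 * Real.logb 2 γ) * Real.log 2 = -δ * Real.log γ := by
      rw [Real.logb]
      field_simp
    rw [h2] at h1
    linarith
  -- the logarithmic factors
  have hlog : Tendsto (fun n : ℕ => Real.log (4 * ((n : ℝ) + 1)) / n) atTop (𝓝 0) := by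
    have h1 : Tendsto (fun x : ℝ => Real.log x / x) atTop (𝓝 0) := by
      simpa using Real.tendsto_pow_log_div_mul_add_atTop 1 0 1 one_ne_zero
    have h2 : Tendsto (fun n : ℕ => 4 * ((n : ℝ) + 1)) atTop atTop :=
      Tendsto.const_mul_atTop (by norm_num)
        (tendsto_atTop_add_const_right _ _ tendsto_natCast_atTop_atTop)
    have h3 := (h1.comp h2).const_mul 8
    rw [mul_zero] at h3
    refine squeeze_zero' ?_ ?_ h3
    · filter_upwards [eventually_gt_atTop 0] with n hn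
      have hn' : (0 : ℝ) < n := by exact_mod_cast hn
      have : 0 ≤ Real.log (4 * ((n : ℝ) + 1)) := Real.log_nonneg (by linarith)
      positivity
    · filter_upwards [eventually_gt_atTop 0] with n hn
      have hn' : (1 : ℝ) ≤ n := by exact_mod_cast hn
      have h4 : 0 ≤ Real.log (4 * ((n : ℝ) + 1)) := Real.log_nonneg (by linarith)
      simp only [Function.comp]
      rw [div_le_iff₀ (by linarith)]
      have h5 : 8 * (Real.log (4 * ((n : ℝ) + 1)) / (4 * ((n : ℝ) + 1))) * n =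
          Real.log (4 * ((n : ℝ) + 1)) * (2 * n / (n + 1)) := by
        field_simp
        ring
      rw [h5]
      have h6 : 1 ≤ 2 * (n : ℝ) / (n + 1) := by
        rw [le_div_iff₀ (by linarith)]
        linarith
      nlinarith
  -- the radius
  have hfl : Tendsto (fun n : ℕ => ((⌊x * n⌋₊ : ℕ) : ℝ) / n) atTop (𝓝 x) := by
    have hlow : Tendsto (fun n : ℕ => x - 1 / (n : ℝ)) atTop (𝓝 (x - 0)) :=
      tendsto_const_nhds.sub (tendsto_const_nhds.div_atTop tendsto_natCast_atTop_atTop)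
    rw [sub_zero] at hlow
    refine tendsto_of_tendsto_of_tendsto_of_le_of_le' hlow tendsto_const_nhds ?_ ?_
    · filter_upwards [eventually_gt_atTop 0] with n hn
      have hn' : (0 : ℝ) < n := by exact_mod_cast hn
      have h2 := Nat.lt_floor_add_one (x * n)
      rw [le_div_iff₀ hn', sub_mul, one_div, inv_mul_cancel₀ hn'.ne']
      linarith
    · filter_upwards [eventually_gt_atTop 0] with n hn
      have hn' : (0 : ℝ) < n := by exact_mod_cast hn
      rw [div_le_iff₀ hn']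
      exact Nat.floor_le (by positivity)
  have hent : Tendsto (fun n : ℕ => Real.binEntropy (((⌊x * n⌋₊ : ℕ) : ℝ) / n)) atTop
      (𝓝 (Real.binEntropy x)) := (Real.binEntropy_continuous.tendsto x).comp hfl
  have hpos : ∀ᶠ n : ℕ in atTop, 1 ≤ ⌊x * n⌋₊ := by
    have h2 : Tendsto (fun n : ℕ => x * (n : ℝ)) atTop atTop :=
      Tendsto.const_mul_atTop hx0 tendsto_natCast_atTop_atTop
    filter_upwards [h2.eventually_ge_atTop 1] with n hn
    rw [Nat.one_le_floor_iff]
    exact hn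
  have hε2 : 0 < ε * Real.log 2 / 3 := by positivity
  filter_upwards [hlog.eventually_lt_const hκ0, hlog.eventually_lt_const hε2,
    hent.eventually_const_lt (show Real.binEntropy x - ε * Real.log 2 / 3 < Real.binEntropy x by
      linarith), hpos, eventually_gt_atTop 0] with n h1 h2 h3 hρ1 hn0 C hC f hf havg
  have hn : (0 : ℝ) < n := by exact_mod_cast hn0
  set ρ := ⌊x * n⌋₊ with hρ
  have hρx : (ρ : ℝ) ≤ x * n := Nat.floor_le (by positivity)
  have hρn : 2 * ρ ≤ n := by
    have : (2 * ρ : ℝ) ≤ n := by nlinarith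
    exact_mod_cast this
  have hp : (ρ : ℝ) / n ≤ x := by rw [div_le_iff₀ hn]; exact hρx
  have hp0 : 0 ≤ (ρ : ℝ) / n := by positivity
  -- the condition
  have hcond : 4 * (n + 1) * (2 : ℝ) ^ (a * n) *
      (2 * √((ρ : ℝ) / n * (1 - ρ / n))) ^ ⌈δ * n⌉₊ ≤ 1 := by
    have hg : 2 * √((ρ : ℝ) / n * (1 - ρ / n)) ≤ γ := by
      rw [hγ]
      have : (ρ : ℝ) / n * (1 - ρ / n) ≤ x * (1 - x) := by
        nlinarith [mul_nonneg (show 0 ≤ x - (ρ : ℝ) / n by linarith)
          (show 0 ≤ 1 - x - (ρ : ℝ) / n by linarith)]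
      gcongr
    have h4 : (2 * √((ρ : ℝ) / n * (1 - ρ / n))) ^ ⌈δ * n⌉₊ ≤ Real.exp (δ * n * Real.log γ) := by
      calc (2 * √((ρ : ℝ) / n * (1 - ρ / n))) ^ ⌈δ * n⌉₊ ≤ γ ^ ⌈δ * n⌉₊ :=
            pow_le_pow_left₀ (by positivity) hg _
        _ = γ ^ ((⌈δ * n⌉₊ : ℕ) : ℝ) := (Real.rpow_natCast _ _).symm
        _ ≤ γ ^ (δ * n) := Real.rpow_le_rpow_of_exponent_ge hγ0 hγ1.le (Nat.le_ceil _)
        _ = _ := by
            rw [Real.rpow_def_of_pos hγ0]
            congr 1
            ring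
    have h5 : (2 : ℝ) ^ (a * n) = Real.exp (a * n * Real.log 2) := by
      rw [Real.rpow_def_of_pos (by norm_num)]
      congr 1
      ring
    have h6 : 4 * ((n : ℝ) + 1) = Real.exp (Real.log (4 * ((n : ℝ) + 1))) :=
      (Real.exp_log (by positivity)).symm
    have h7 : Real.log (4 * ((n : ℝ) + 1)) < κ * n := by
      rwa [div_lt_iff₀ hn] at h1
    calc 4 * ((n : ℝ) + 1) * (2 : ℝ) ^ (a * n) *
        (2 * √((ρ : ℝ) / n * (1 - ρ / n))) ^ ⌈δ * n⌉₊
        ≤ 4 * ((n : ℝ) + 1) * (2 : ℝ) ^ (a * n) * Real.exp (δ * n * Real.log γ) := by gcongr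
      _ = Real.exp (Real.log (4 * ((n : ℝ) + 1)) + a * n * Real.log 2 + δ * n * Real.log γ) := by
          rw [Real.exp_add, Real.exp_add, ← h6, ← h5]
      _ ≤ Real.exp 0 := by
          apply Real.exp_le_exp.2
          have : κ * n = -(δ * n * Real.log γ) - a * n * Real.log 2 := by rw [hκ]; ring
          linarith
      _ = 1 := Real.exp_zero
  have hF : 1 ≤ (2 : ℝ) ^ (a * n) := Real.one_le_rpow (by norm_num) (by positivity)
  have hmain := code_bound (d := ⌈δ * n⌉₊) (ρ := ρ) (fun y hy z hz hyz => by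
    rw [Nat.ceil_le]
    exact hC y hy z hz hyz) f hf hF havg hρ1 hρn hcond
  -- the volume
  have hvol : Real.exp (n * Real.binEntropy ((ρ : ℝ) / n)) ≤ (n + 1) * vol n ρ := by
    have h4 := Pool.Agent.Y570.LS.choose_ge (n := n) (j := ρ) hρ1 (by omega)
    have h5 : (n.choose ρ : ℝ) ≤ vol n ρ := by
      have : n.choose ρ ≤ vol n ρ := by
        unfold vol
        exact Finset.single_le_sum (f := fun i => n.choose i) (fun _ _ => Nat.zero_le _)
          (by simp)
      exact_mod_cast this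
    refine h4.trans ?_
    gcongr
  have hE : 0 < Real.exp (n * Real.binEntropy ((ρ : ℝ) / n)) := Real.exp_pos _
  have h8 : (C.card : ℝ) * Real.exp (n * Real.binEntropy ((ρ : ℝ) / n)) ≤
      4 * ((n : ℝ) + 1) * 2 ^ n := by
    calc _ ≤ (C.card : ℝ) * ((n + 1) * vol n ρ) := by gcongr
      _ = (n + 1) * ((C.card : ℝ) * vol n ρ) := by ring
      _ ≤ (n + 1) * (4 * 2 ^ n) := by gcongr
      _ = _ := by ring
  have h9 : (C.card : ℝ) ≤ 4 * ((n : ℝ) + 1) * 2 ^ n *
      Real.exp (-(n * Real.binEntropy ((ρ : ℝ) / n))) := by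
    rw [Real.exp_neg, ← div_eq_mul_inv, le_div_iff₀ hE]
    exact h8
  refine h9.trans ?_
  have h10 : 4 * ((n : ℝ) + 1) ≤ Real.exp (ε * Real.log 2 / 3 * n) := by
    rw [← Real.log_le_iff_le_exp (by positivity)]
    rw [div_lt_iff₀ hn] at h2
    exact h2.le
  have h11 : (2 : ℝ) ^ n = Real.exp (n * Real.log 2) := by
    rw [Real.exp_nat_mul, Real.exp_log (by norm_num)]
  have h12 : -(n * Real.binEntropy ((ρ : ℝ) / n)) ≤
      -(n * (Real.binEntropy x - ε * Real.log 2 / 3)) := by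
    have := mul_le_mul_of_nonneg_left h3.le hn.le
    linarith
  rw [h11]
  calc 4 * ((n : ℝ) + 1) * Real.exp (n * Real.log 2) *
      Real.exp (-(n * Real.binEntropy ((ρ : ℝ) / n)))
      ≤ Real.exp (ε * Real.log 2 / 3 * n) * Real.exp (n * Real.log 2) *
        Real.exp (-(n * (Real.binEntropy x - ε * Real.log 2 / 3))) := by
        gcongr
    _ = Real.exp (ε * Real.log 2 / 3 * n + n * Real.log 2 +
        -(n * (Real.binEntropy x - ε * Real.log 2 / 3))) := by
        rw [Real.exp_add, Real.exp_add]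
    _ ≤ Real.exp (Real.log 2 * ((1 - Real.binEntropy x / Real.log 2 + ε) * n)) := by
        apply Real.exp_le_exp.2
        have e1 : Real.log 2 * ((1 - Real.binEntropy x / Real.log 2 + ε) * n) =
            (Real.log 2 - Real.binEntropy x + ε * Real.log 2) * n := by
          field_simp
        rw [e1]
        have : 0 ≤ ε * Real.log 2 * n / 3 := by positivity
        nlinarith
    _ = _ := by rw [Real.rpow_def_of_pos (by norm_num)]

end Pool.Agent.Q197.VC
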