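import Pool.Agent.Q197.NC.Rate

/-! Binary codes whose Voronoi cells are cut out by few codewords. -/

set_option autoImplicit false

open Finset

namespace Pool.Agent.Q197.VC

open Pool.Agent.Q197.NC (ker sum_ker sum_ker_mul vol card_ball)

variable {n : ℕ}

/-- The words which are nearer to `x` than to the other words of `C` are cut out by at most `F`
words of `C`. -/
def FewNeighbours (C : Finset (Fin n → Bool)) (x : Fin n → Bool) (F : ℕ) : Prop :=
  ∃ S : Finset (Fin n → Bool), (∀ y ∈ S, y ∈ C ∧ y ≠ x) ∧ S.card ≤ F ∧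
    ∀ z, (∀ y ∈ S, hammingDist z x < hammingDist z y) →
      ∀ y ∈ C, y ≠ x → hammingDist z x < hammingDist z y

lemma ker_eq (a b : ℝ) (x z : Fin n → Bool) :
    ker a b x z = a ^ (n - hammingDist x z) * b ^ hammingDist x z := by
  unfold ker
  rw [Finset.prod_ite, Finset.prod_const, Finset.prod_const]
  have h1 : (Finset.univ.filter (fun i => ¬ x i = z i)).card = hammingDist x z := rfl
  have h2 : (Finset.univ.filter (fun i => x i = z i)).card = n - hammingDist x z := by
    have h3 := Finset.card_filter_add_card_filter_not (s := (Finset.univ : Finset (Fin n)))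
      (fun i => x i = z i)
    rw [h1, Finset.card_univ, Fintype.card_fin] at h3
    omega
  rw [h1, h2]

lemma hd_le (x z : Fin n → Bool) : hammingDist x z ≤ n := by
  have := hammingDist_le_card_fintype (x := x) (y := z)
  simpa using this

/-- the words of a ball which are not nearer to its centre than to `y` -/
lemma bad_card {ρ : ℕ} (h0 : 0 < ρ) (h1 : 2 * ρ ≤ n) (x y : Fin n → Bool) :
    (((univ : Finset (Fin n → Bool)).filter
      (fun z => hammingDist z x ≤ ρ ∧ hammingDist z y ≤ hammingDist z x)).card : ℝ) ≤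
      (n + 1) * vol n ρ *
        (2 * √((ρ : ℝ) / n * (1 - ρ / n))) ^ hammingDist x y := by
  have hn : 0 < n := by omega
  have hn' : (0 : ℝ) < n := by exact_mod_cast hn
  set p : ℝ := (ρ : ℝ) / n with hp
  have hp0 : 0 < p := by positivity
  have hp1 : p ≤ 1 / 2 := by
    rw [hp, div_le_iff₀ hn']
    have : (2 : ℝ) * ρ ≤ n := by exact_mod_cast h1
    linarith
  set q := 1 - p with hq
  have hq0 : 0 < q := by linarith
  have hpq : p ≤ q := by linarith
  set E := Real.exp (n * Real.binEntropy p) with hE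
  have hEpos : 0 < E := Real.exp_pos _
  -- the weight of the words of the ball
  have hwt : ∀ z : Fin n → Bool, hammingDist z x ≤ ρ → 1 ≤ E * ker q p x z := by
    intro z hz
    rw [hammingDist_comm] at hz
    rw [ker_eq]
    have h2 : q ^ (n - ρ) * p ^ ρ ≤ q ^ (n - hammingDist x z) * p ^ hammingDist x z := by
      obtain ⟨k, hk⟩ : ∃ k, ρ = hammingDist x z + k := ⟨ρ - hammingDist x z, by omega⟩
      have h3 : n - hammingDist x z = (n - ρ) + k := by omega
      rw [h3, hk, pow_add, pow_add, ← hk]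
      have : p ^ k ≤ q ^ k := pow_le_pow_left₀ hp0.le hpq k
      calc q ^ (n - ρ) * (p ^ hammingDist x z * p ^ k) =
          q ^ (n - ρ) * p ^ hammingDist x z * p ^ k := by ring
        _ ≤ q ^ (n - ρ) * p ^ hammingDist x z * q ^ k := by gcongr
        _ = _ := by ring
    have h4 : E * (q ^ (n - ρ) * p ^ ρ) = 1 := by
      have h5 := Pool.Agent.Y570.LS.ent_term hp0 (show p < 1 by linarith) n ρ (by omega)
      rw [mul_comm (q ^ (n - ρ)), h5, hE, Pool.Agent.Y570.LS.ent_eq, ← Real.exp_add]
      have h6 : (n : ℝ) * p = ρ := by rw [hp]; field_simp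
      rw [h6]
      simp
    calc (1 : ℝ) = E * (q ^ (n - ρ) * p ^ ρ) := h4.symm
      _ ≤ _ := by gcongr
  have hker : ∀ z, ker q p x z = ker (√q) (√p) x z ^ 2 := by
    intro z
    unfold ker
    rw [← Finset.prod_pow]
    apply Finset.prod_congr rfl
    intro i _
    split_ifs
    · rw [Real.sq_sqrt hq0.le]
    · rw [Real.sq_sqrt hp0.le]
  have hbad : ∀ z : Fin n → Bool, hammingDist z y ≤ hammingDist z x →
      ker q p x z ≤ ker (√q) (√p) x z * ker (√q) (√p) y z := by
    intro z hz
    rw [hker, sq]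
    have h0 : 0 ≤ ker (√q) (√p) x z := by
      rw [ker_eq]
      positivity
    apply mul_le_mul_of_nonneg_left _ h0
    rw [ker_eq, ker_eq, hammingDist_comm x z, hammingDist_comm y z]
    obtain ⟨k, hk⟩ : ∃ k, hammingDist z x = hammingDist z y + k :=
      ⟨hammingDist z x - hammingDist z y, by omega⟩
    have hle := hd_le z x
    have h3 : n - hammingDist z y = (n - hammingDist z x) + k := by omega
    rw [h3, hk, pow_add, pow_add, ← hk]
    have : √p ^ k ≤ √q ^ k := pow_le_pow_left₀ (Real.sqrt_nonneg _) (Real.sqrt_le_sqrt hpq) k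
    calc √q ^ (n - hammingDist z x) * (√p ^ hammingDist z y * √p ^ k)
        ≤ √q ^ (n - hammingDist z x) * (√p ^ hammingDist z y * √q ^ k) := by gcongr
      _ = _ := by ring
  set Z := (univ : Finset (Fin n → Bool)).filter
      (fun z => hammingDist z x ≤ ρ ∧ hammingDist z y ≤ hammingDist z x) with hZ
  have hsum : (Z.card : ℝ) ≤ E * (2 * √(p * q)) ^ hammingDist x y := by
    calc (Z.card : ℝ) = ∑ z ∈ Z, (1 : ℝ) := by simp
      _ ≤ ∑ z ∈ Z, E * (ker (√q) (√p) x z * ker (√q) (√p) y z) := by
          apply Finset.sum_le_sum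
          intro z hz
          rw [hZ, Finset.mem_filter] at hz
          exact (hwt z hz.2.1).trans (mul_le_mul_of_nonneg_left (hbad z hz.2.2) hEpos.le)
      _ ≤ ∑ z, E * (ker (√q) (√p) x z * ker (√q) (√p) y z) := by
          apply Finset.sum_le_sum_of_subset_of_nonneg (Finset.subset_univ _)
          intro z _ _
          rw [ker_eq, ker_eq]
          positivity
      _ = E * (2 * √(p * q)) ^ hammingDist x y := by
          rw [← Finset.mul_sum, sum_ker_mul (by
            rw [Real.sq_sqrt hq0.le, Real.sq_sqrt hp0.le]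
            linarith)]
          congr 2
          rw [Real.sqrt_mul hp0.le]
          ring
  have hEle : E ≤ (n + 1) * vol n ρ := by
    have h2 := Pool.Agent.Y570.LS.choose_ge (n := n) (j := ρ) (by omega) (by omega)
    have h3 : (n.choose ρ : ℝ) ≤ vol n ρ := by
      have : n.choose ρ ≤ vol n ρ := by
        unfold vol
        exact Finset.single_le_sum (f := fun i => n.choose i) (fun _ _ => Nat.zero_le _)
          (by simp)
      exact_mod_cast this
    refine h2.trans ?_
    gcongr
  refine hsum.trans ?_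
  gcongr

/-- the main bound -/
theorem code_bound {C : Finset (Fin n → Bool)} {d ρ : ℕ}
    (hC : ∀ x ∈ C, ∀ y ∈ C, x ≠ y → d ≤ hammingDist x y) (f : (Fin n → Bool) → ℕ)
    (hf : ∀ x ∈ C, FewNeighbours C x (f x)) {F : ℝ} (hF : 1 ≤ F)
    (havg : ∑ x ∈ C, (f x : ℝ) ≤ F * C.card) (h0 : 0 < ρ) (h1 : 2 * ρ ≤ n)
    (hρ : 4 * (n + 1) * F * (2 * √((ρ : ℝ) / n * (1 - ρ / n))) ^ d ≤ 1) :
    (C.card : ℝ) * vol n ρ ≤ 4 * 2 ^ n := by
  classical
  have hn : 0 < n := by omega
  have hn' : (0 : ℝ) < n := by exact_mod_cast hn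
  set g : ℝ := 2 * √((ρ : ℝ) / n * (1 - ρ / n)) with hg
  have hg0 : 0 ≤ g := by positivity
  have hp1 : (ρ : ℝ) / n ≤ 1 / 2 := by
    rw [div_le_iff₀ hn']
    have : (2 : ℝ) * ρ ≤ n := by exact_mod_cast h1
    linarith
  have hg1 : g ≤ 1 := by
    have h2 : √((ρ : ℝ) / n * (1 - ρ / n)) ≤ 1 / 2 := by
      rw [Real.sqrt_le_left (by norm_num)]
      nlinarith [sq_nonneg ((ρ : ℝ) / n - 1 / 2)]
    linarith
  -- the strict cells
  let cell : (Fin n → Bool) → Finset (Fin n → Bool) := fun x =>
    univ.filter (fun z => hammingDist z x ≤ ρ ∧ ∀ y ∈ C, y ≠ x → hammingDist z x < hammingDist z y)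
  set G := C.filter (fun x => (f x : ℝ) ≤ 2 * F) with hG
  set Bd := C.filter (fun x => ¬ (f x : ℝ) ≤ 2 * F) with hBd
  have hGB : (G.card : ℝ) + Bd.card = C.card := by
    rw [hG, hBd]
    exact_mod_cast Finset.card_filter_add_card_filter_not _
  have hbad : (Bd.card : ℝ) * (2 * F) ≤ F * C.card := by
    refine le_trans ?_ havg
    calc (Bd.card : ℝ) * (2 * F) = ∑ x ∈ Bd, 2 * F := by
          rw [Finset.sum_const, nsmul_eq_mul]
      _ ≤ ∑ x ∈ Bd, (f x : ℝ) := by
          apply Finset.sum_le_sum
          intro x hx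
          rw [hBd, Finset.mem_filter, not_le] at hx
          exact hx.2.le
      _ ≤ ∑ x ∈ C, (f x : ℝ) := by
          apply Finset.sum_le_sum_of_subset_of_nonneg (Finset.filter_subset _ _)
          intro _ _ _
          positivity
  have hbad2 : (Bd.card : ℝ) ≤ C.card / 2 := by
    have h2 : F * ((Bd.card : ℝ) * 2) ≤ F * C.card := by linarith
    have := le_of_mul_le_mul_left h2 (by linarith)
    linarith
  have hgood : (C.card : ℝ) / 2 ≤ G.card := by linarith
  have hcell : ∀ x ∈ G, (vol n ρ : ℝ) / 2 ≤ (cell x).card := by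
    intro x hx
    rw [hG, Finset.mem_filter] at hx
    obtain ⟨S, hS, hcard, hcut⟩ := hf x hx.1
    have hSF : (S.card : ℝ) ≤ 2 * F := le_trans (by exact_mod_cast hcard) hx.2
    have hsub : (univ : Finset (Fin n → Bool)).filter (fun z => hammingDist x z ≤ ρ) ⊆
        cell x ∪ S.biUnion fun y => univ.filter
          (fun z => hammingDist z x ≤ ρ ∧ hammingDist z y ≤ hammingDist z x) := by
      intro z hz
      rw [Finset.mem_filter, hammingDist_comm] at hz
      by_cases h : ∀ y ∈ S, hammingDist z x < hammingDist z y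
      · rw [Finset.mem_union]
        left
        simp only [cell, Finset.mem_filter, Finset.mem_univ, true_and]
        exact ⟨hz.2, hcut z h⟩
      · push Not at h
        obtain ⟨y, hy, hyz⟩ := h
        rw [Finset.mem_union]
        right
        rw [Finset.mem_biUnion]
        refine ⟨y, hy, ?_⟩
        rw [Finset.mem_filter]
        exact ⟨Finset.mem_univ _, hz.2, hyz⟩
    have h2 := Finset.card_le_card hsub
    rw [card_ball] at h2
    have h3 : (vol n ρ : ℝ) ≤ (cell x).card + ∑ y ∈ S, ((univ.filter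
          (fun z => hammingDist z x ≤ ρ ∧ hammingDist z y ≤ hammingDist z x)).card : ℝ) := by
      have h4 := h2.trans ((Finset.card_union_le _ _).trans
        (Nat.add_le_add_left Finset.card_biUnion_le _))
      exact_mod_cast h4
    have h5 : ∑ y ∈ S, ((univ.filter
          (fun z => hammingDist z x ≤ ρ ∧ hammingDist z y ≤ hammingDist z x)).card : ℝ) ≤
        ∑ y ∈ S, (n + 1) * vol n ρ * g ^ d := by
      apply Finset.sum_le_sum
      intro y hy
      refine (bad_card h0 h1 x y).trans ?_
      have h6 : g ^ hammingDist x y ≤ g ^ d :=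
        pow_le_pow_of_le_one hg0 hg1 (hC x hx.1 y (hS y hy).1 (hS y hy).2.symm)
      gcongr
    rw [Finset.sum_const, nsmul_eq_mul] at h5
    have h7 : (S.card : ℝ) * ((n + 1) * vol n ρ * g ^ d) ≤ vol n ρ / 2 := by
      calc (S.card : ℝ) * ((n + 1) * vol n ρ * g ^ d) ≤ 2 * F * ((n + 1) * vol n ρ * g ^ d) := by
            gcongr
        _ = (4 * (n + 1) * F * g ^ d) * (vol n ρ / 2) := by ring
        _ ≤ 1 * (vol n ρ / 2) := by gcongr
        _ = _ := one_mul _
    linarith
  -- disjointness
  have hdisj : (G : Set (Fin n → Bool)).PairwiseDisjoint cell := by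
    intro x hx y hy hxy
    rw [Function.onFun, Finset.disjoint_left]
    intro z hz hz2
    simp only [cell, Finset.mem_filter, Finset.mem_univ, true_and] at hz hz2
    rw [Finset.mem_coe, hG, Finset.mem_filter] at hx hy
    have a1 := hz.2 y hy.1 hxy.symm
    have a2 := hz2.2 x hx.1 hxy
    omega
  have htot : ∑ x ∈ G, ((cell x).card : ℝ) ≤ 2 ^ n := by
    have h2 : ∑ x ∈ G, (cell x).card ≤ 2 ^ n := by
      rw [← Finset.card_biUnion hdisj]
      refine (Finset.card_le_univ _).trans ?_
      simp
    exact_mod_cast h2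
  have h2 : (G.card : ℝ) * (vol n ρ / 2) ≤ 2 ^ n := by
    refine le_trans ?_ htot
    rw [← nsmul_eq_mul, ← Finset.sum_const]
    exact Finset.sum_le_sum hcell
  have h3 : (C.card : ℝ) / 2 * (vol n ρ / 2) ≤ 2 ^ n := by
    refine le_trans ?_ h2
    gcongr
  linarith

end Pool.Agent.Q197.VC
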