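import Pool.Agent.Q197.VC.Asym

/-! Minimal codewords of binary linear codes. -/

set_option autoImplicit false

open Finset

namespace Pool.Agent.Q197.VC

open Pool.Agent.Q197.NC (vol)

variable {n : ℕ}

/-- the support of a word -/
def supp (c : Fin n → Bool) : Finset (Fin n) := univ.filter (fun i => c i = true)

/-- the sum modulo two -/
def add2 (x y : Fin n → Bool) : Fin n → Bool := fun i => xor (x i) (y i)

/-- `c` is a minimal codeword: no other nonzero word of `C` has its support inside that of `c` -/
def IsMinimalWord (C : Finset (Fin n → Bool)) (c : Fin n → Bool) : Prop :=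
  c ∈ C ∧ (supp c).Nonempty ∧ ∀ m ∈ C, (supp m).Nonempty → supp m ⊆ supp c → m = c

lemma mem_supp {c : Fin n → Bool} {i : Fin n} : i ∈ supp c ↔ c i = true := by simp [supp]

lemma exists_minimal (C : Finset (Fin n → Bool)) : ∀ k : ℕ, ∀ c ∈ C, (supp c).card = k →
    (supp c).Nonempty → ∃ m, IsMinimalWord C m ∧ supp m ⊆ supp c := by
  intro k
  induction k using Nat.strong_induction_on with
  | _ k ih =>
    intro c hc hk hne
    by_cases h : IsMinimalWord C c
    · exact ⟨c, h, Finset.Subset.refl _⟩
    · unfold IsMinimalWord at h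
      push Not at h
      obtain ⟨m, hm, hm1, hm2, hm3⟩ := h hc hne
      have hss : supp m ⊂ supp c := by
        refine (Finset.ssubset_iff_subset_ne).2 ⟨hm2, ?_⟩
        intro he
        apply hm3
        ext i
        have h1 : i ∈ supp m ↔ i ∈ supp c := by rw [he]
        rw [mem_supp, mem_supp] at h1
        cases hmi : m i <;> cases hci : c i <;> simp_all
      have hlt := Finset.card_lt_card hss
      obtain ⟨m', hm', hs'⟩ := ih (supp m).card (by omega) m hm rfl hm1
      exact ⟨m', hm', hs'.trans hm2⟩

lemma dist_add (z x c : Fin n → Bool) : (hammingDist z (add2 x c) : ℤ) - hammingDist z x =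
    ∑ i ∈ supp c, (if z i = x i then 1 else -1) := by
  have h1 : ∀ u : Fin n → Bool, (hammingDist z u : ℤ) = ∑ i, if z i ≠ u i then (1 : ℤ) else 0 := by
    intro u
    rw [hammingDist, Finset.card_filter]
    push_cast
    rfl
  rw [h1, h1, ← Finset.sum_sub_distrib, supp, Finset.sum_filter]
  apply Finset.sum_congr rfl
  intro i _
  unfold add2
  cases hz : z i <;> cases hx : x i <;> cases hc : c i <;> simp

lemma supp_add {c m : Fin n → Bool} (h : supp m ⊆ supp c) : supp (add2 c m) = supp c \ supp m := by
  ext i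
  rw [Finset.mem_sdiff, mem_supp, mem_supp, mem_supp]
  have h1 : m i = true → c i = true := fun hm => mem_supp.1 (h (mem_supp.2 hm))
  unfold add2
  cases hm : m i <;> cases hc : c i <;> simp_all

/-- the minimal words of a linear code cut out the cells -/
lemma linear_cells {C : Finset (Fin n → Bool)} (hadd : ∀ x ∈ C, ∀ y ∈ C, add2 x y ∈ C)
    (M : Finset (Fin n → Bool)) (hM : ∀ c, IsMinimalWord C c → c ∈ M) (hM2 : ∀ c ∈ M, c ∈ C)
    (hM3 : ∀ c ∈ M, (supp c).Nonempty) {x : Fin n → Bool} (hx : x ∈ C) :
    FewNeighbours C x M.card := by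
  classical
  refine ⟨M.image (add2 x), ?_, Finset.card_image_le, ?_⟩
  · intro y hy
    rw [Finset.mem_image] at hy
    obtain ⟨c, hc, rfl⟩ := hy
    refine ⟨hadd x hx c (hM2 c hc), ?_⟩
    obtain ⟨i, hi⟩ := hM3 c hc
    intro he
    have := congrFun he i
    rw [mem_supp] at hi
    unfold add2 at this
    rw [hi] at this
    cases hxi : x i <;> simp [hxi] at this
  · intro z hz
    have key : ∀ k : ℕ, ∀ c ∈ C, (supp c).card = k → (supp c).Nonempty →
        0 < ∑ i ∈ supp c, (if z i = x i then (1 : ℤ) else -1) := by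
      intro k
      induction k using Nat.strong_induction_on with
      | _ k ih =>
        intro c hc hk hne
        obtain ⟨m, hm, hsub⟩ := exists_minimal C k c hc hk hne
        have h1 : 0 < ∑ i ∈ supp m, (if z i = x i then (1 : ℤ) else -1) := by
          rw [← dist_add]
          have := hz (add2 x m) (Finset.mem_image_of_mem _ (hM m hm))
          have h2 : (hammingDist z x : ℤ) < hammingDist z (add2 x m) := by exact_mod_cast this
          linarith
        rw [← Finset.sum_sdiff hsub]
        rcases (supp c \ supp m).eq_empty_or_nonempty with he | hne2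
        · rw [he, Finset.sum_empty, zero_add]
          exact h1
        · have h2 : add2 c m ∈ C := hadd c hc m hm.1
          have h3 := supp_add hsub
          have h4 : (supp (add2 c m)).card < k := by
            rw [h3, Finset.card_sdiff_of_subset hsub, hk]
            have := hm.2.1.card_pos
            have := Finset.card_le_card hsub
            omega
          have h5 := ih _ h4 (add2 c m) h2 rfl (by rw [h3]; exact hne2)
          rw [h3] at h5
          linarith
    intro y hy hyx
    have h1 : add2 x y ∈ C := hadd x hx y hy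
    have h2 : (supp (add2 x y)).Nonempty := by
      obtain ⟨i, hi⟩ := Function.ne_iff.1 hyx
      refine ⟨i, ?_⟩
      rw [mem_supp]
      unfold add2
      cases hxi : x i <;> cases hyi : y i <;> simp_all
    have h3 := key _ (add2 x y) h1 rfl h2
    rw [← dist_add] at h3
    have h4 : add2 x (add2 x y) = y := by
      ext i
      unfold add2
      cases x i <;> cases y i <;> simp
    rw [h4] at h3
    have h5 : (hammingDist z x : ℤ) < hammingDist z y := by linarith
    exact_mod_cast h5

/-- codes above the bound of Gilbert and Varshamov -/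
theorem above_gv {C : Finset (Fin n → Bool)} {d : ℕ} (hd : 0 < d) (hdn : 2 * d ≤ n)
    (hC : ∀ x ∈ C, ∀ y ∈ C, x ≠ y → d ≤ hammingDist x y) (f : (Fin n → Bool) → ℕ)
    (hf : ∀ x ∈ C, FewNeighbours C x (f x)) {F : ℝ} (hF : 1 ≤ F)
    (havg : ∑ x ∈ C, (f x : ℝ) ≤ F * C.card) (hgv : 4 * 2 ^ n < (C.card : ℝ) * vol n d) :
    1 / (4 * (n + 1) * (2 * √((d : ℝ) / n * (1 - d / n))) ^ d) < F := by
  have hn : (0 : ℝ) < n := by
    have : 0 < n := by omega
    exact_mod_cast this
  have hp : (d : ℝ) / n ≤ 1 / 2 := by
    rw [div_le_iff₀ hn]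
    have : (2 : ℝ) * d ≤ n := by exact_mod_cast hdn
    linarith
  have hp0 : 0 < (d : ℝ) / n := by positivity
  have hg : 0 < 2 * √((d : ℝ) / n * (1 - d / n)) := by
    have : 0 < (d : ℝ) / n * (1 - d / n) := mul_pos hp0 (by linarith)
    positivity
  rw [div_lt_iff₀ (by positivity)]
  by_contra h
  rw [not_lt] at h
  have h2 := code_bound hC f hf hF havg hd hdn (by
    refine le_trans (le_of_eq ?_) h
    ring)
  linarith

/-- linear codes above the bound of Gilbert and Varshamov -/
theorem linear_gv {C : Finset (Fin n → Bool)} {d : ℕ} (hd : 0 < d) (hdn : 2 * d ≤ n)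
    (hadd : ∀ x ∈ C, ∀ y ∈ C, add2 x y ∈ C)
    (hC : ∀ x ∈ C, ∀ y ∈ C, x ≠ y → d ≤ hammingDist x y)
    (hgv : 4 * 2 ^ n < (C.card : ℝ) * vol n d) :
    1 / (4 * (n + 1) * (2 * √((d : ℝ) / n * (1 - d / n))) ^ d) <
      ({c | IsMinimalWord C c}.ncard : ℝ) := by
  classical
  have hfin : {c | IsMinimalWord C c}.Finite := Set.toFinite _
  set M := hfin.toFinset with hM
  have hMm : ∀ c, c ∈ M ↔ IsMinimalWord C c := by
    intro c
    rw [hM, Set.Finite.mem_toFinset]
    rfl
  have hcard : {c | IsMinimalWord C c}.ncard = M.card := Set.ncard_eq_toFinset_card _ hfin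
  rw [hcard]
  have hvol : (vol n d : ℝ) ≤ 2 ^ n := by
    have h1 := Pool.Agent.Q197.NC.card_ball (n := n) (fun _ => true) d
    have h2 : vol n d ≤ 2 ^ n := by
      rw [← h1]
      refine (Finset.card_le_univ _).trans ?_
      simp
    exact_mod_cast h2
  have hC1 : 1 < C.card := by
    have h2n : (0 : ℝ) < 2 ^ n := by positivity
    have h3 : (4 : ℝ) * 2 ^ n < C.card * 2 ^ n := by
      refine lt_of_lt_of_le hgv ?_
      gcongr
    have h4 : (4 : ℝ) < C.card := lt_of_mul_lt_mul_right h3 h2n.le
    have h5 : 4 < C.card := by exact_mod_cast h4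
    omega
  have hM1 : 1 ≤ M.card := by
    obtain ⟨x, hx, y, hy, hxy⟩ := Finset.one_lt_card.1 hC1
    have h2 : (supp (add2 x y)).Nonempty := by
      obtain ⟨i, hi⟩ := Function.ne_iff.1 hxy
      refine ⟨i, ?_⟩
      rw [mem_supp]
      unfold add2
      cases hxi : x i <;> cases hyi : y i <;> simp_all
    obtain ⟨m, hm, _⟩ := exists_minimal C _ (add2 x y) (hadd x hx y hy) rfl h2
    exact Finset.card_pos.2 ⟨m, (hMm m).2 hm⟩
  apply above_gv hd hdn hC (fun _ => M.card)
  · intro x hx
    exact linear_cells hadd M (fun c hc => (hMm c).2 hc) (fun c hc => ((hMm c).1 hc).1)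
      (fun c hc => ((hMm c).1 hc).2.1) hx
  · exact_mod_cast hM1
  · rw [Finset.sum_const, nsmul_eq_mul, mul_comm]
  · exact hgv

end Pool.Agent.Q197.VC
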