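import Pool.Agent.Q197.VC.Sph

/-! Counting in Voronoi cones of spherical codes. -/

set_option autoImplicit false

open MeasureTheory Metric Filter Topology Set
open Pool.Agent.Q197.NP (E vB vB_pos vol_ball)

namespace Pool.Agent.Q197.VC

variable {n : ℕ}

/-- the part of the Voronoi cone in a slab -/
def cellS (X : Finset (E n)) (ρ h : ℝ) (x : E n) : Set (E n) :=
  {z | z ∈ slab ρ h x ∧ ∀ y ∈ X, inner ℝ z y ≤ inner ℝ z x}

lemma cellS_meas (X : Finset (E n)) (ρ h : ℝ) (x : E n) : MeasurableSet (cellS X ρ h x) := by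
  have h1 : cellS X ρ h x = slab ρ h x ∩ ⋂ y ∈ X, {z | inner ℝ z y ≤ inner ℝ z x} := by
    ext z
    simp [cellS]
  rw [h1]
  apply (slab_meas ρ h x).inter
  apply IsClosed.measurableSet
  apply isClosed_biInter
  intro y _
  exact isClosed_le (by fun_prop) (by fun_prop)

lemma cellS_sub (X : Finset (E n)) (ρ h : ℝ) (x : E n) : cellS X ρ h x ⊆ ball x ρ :=
  fun _ hz => hz.1.1

lemma cellS_fin (X : Finset (E n)) (ρ h : ℝ) (x : E n) : volume (cellS X ρ h x) ≠ ⊤ :=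
  ((measure_mono (cellS_sub X ρ h x)).trans_lt measure_ball_lt_top).ne

lemma cellS_disj {X : Finset (E n)} {ρ h : ℝ} {x y : E n} (hx : x ∈ X) (hy : y ∈ X)
    (hxy : x ≠ y) : AEDisjoint volume (cellS X ρ h x) (cellS X ρ h y) := by
  have hsub : cellS X ρ h x ∩ cellS X ρ h y ⊆ ((ℝ ∙ (x - y))ᗮ : Submodule ℝ (E n)) := by
    rintro z ⟨h1, h2⟩
    rw [SetLike.mem_coe, Submodule.mem_orthogonal_singleton_iff_inner_left, inner_sub_right]
    have h3 := h1.2 y hy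
    have h4 := h2.2 x hx
    linarith
  have h0 : volume (((ℝ ∙ (x - y))ᗮ : Submodule ℝ (E n)) : Set (E n)) = 0 := by
    apply Measure.addHaar_submodule
    intro htop
    have h1 : x - y ∈ (ℝ ∙ (x - y))ᗮ := by rw [htop]; trivial
    rw [Submodule.mem_orthogonal_singleton_iff_inner_left, inner_self_eq_zero] at h1
    exact hxy (sub_eq_zero.1 h1)
  exact measure_mono_null hsub h0

/-- the volume of the cell -/
lemma cellS_vol {X : Finset (E n)} {κ t : ℝ} (hκ1 : κ < 1) (hκ : -1 < κ) (ht : 0 < t)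
    (htκ : t ^ 2 = (1 - κ) / (1 + κ)) (hX1 : ∀ x ∈ X, ‖x‖ = 1)
    (hX : ∀ x ∈ X, ∀ y ∈ X, x ≠ y → inner ℝ x y ≤ κ) {x : E n} (hx : x ∈ X) {F : ℕ}
    (hF : FewNeighbours X x F) {ρ h : ℝ} (hρ : t < ρ) :
    volume.real (slab ρ h x) - F * (vB n * √(ρ ^ 2 - t ^ 2) ^ n) ≤
      volume.real (cellS X ρ h x) := by
  classical
  obtain ⟨S, hS, hcard, hcell⟩ := hF
  have hρ0 : 0 < ρ := ht.trans hρ
  have hs : 0 < ρ ^ 2 - t ^ 2 := by nlinarith
  have hsq : 0 < √(ρ ^ 2 - t ^ 2) := Real.sqrt_pos.2 hs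
  let c : E n → E n := fun y =>
    x + (t / √(1 - (inner ℝ x y) ^ 2)) • (y - (inner ℝ x y : ℝ) • x)
  have hsub : slab ρ h x ⊆ cellS X ρ h x ∪ ⋃ y ∈ S, closedBall (c y) (√(ρ ^ 2 - t ^ 2)) := by
    intro z hz
    by_cases h0 : ∀ y ∈ S, inner ℝ z y ≤ inner ℝ z x
    · left
      exact ⟨hz, hcell z h0⟩
    · right
      push Not at h0
      obtain ⟨y, hy, hyz⟩ := h0
      rw [Set.mem_iUnion₂]
      refine ⟨y, hy, ?_⟩
      rw [mem_closedBall, dist_eq_norm]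
      apply Real.le_sqrt_of_sq_le
      have hz1 := hz.1
      rw [mem_ball, dist_eq_norm] at hz1
      exact beyondS (hX1 x hx) (hX1 y (hS y hy).1) hκ1 hκ ht htκ
        (hX x hx y (hS y hy).1 (hS y hy).2.symm) hz1 hz.2.1 hyz
  have hfin2 : volume (⋃ y ∈ S, closedBall (c y) (√(ρ ^ 2 - t ^ 2))) ≠ ⊤ := by
    refine (lt_of_le_of_lt (measure_biUnion_finset_le _ _) ?_).ne
    exact ENNReal.sum_lt_top.2 fun v _ => measure_closedBall_lt_top
  have h1 : volume.real (slab ρ h x) ≤ volume.real (cellS X ρ h x) +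
      volume.real (⋃ y ∈ S, closedBall (c y) (√(ρ ^ 2 - t ^ 2))) := by
    refine (measureReal_mono hsub ?_).trans (measureReal_union_le _ _)
    exact (lt_of_le_of_lt (measure_union_le _ _) (ENNReal.add_lt_top.2
      ⟨(cellS_fin X ρ h x).lt_top, hfin2.lt_top⟩)).ne
  have h2 : volume.real (⋃ y ∈ S, closedBall (c y) (√(ρ ^ 2 - t ^ 2))) ≤
      F * (vB n * √(ρ ^ 2 - t ^ 2) ^ n) := by
    refine (measureReal_biUnion_finset_le _ _).trans ?_
    have h3 : ∀ y ∈ S, volume.real (closedBall (c y) (√(ρ ^ 2 - t ^ 2))) =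
        vB n * √(ρ ^ 2 - t ^ 2) ^ n := by
      intro y _
      rw [measureReal_def, Measure.addHaar_closedBall _ _ hsq.le, ENNReal.toReal_mul,
        ENNReal.toReal_ofReal (by positivity), ← measureReal_def]
      simp [vB, mul_comm]
    rw [Finset.sum_congr rfl h3, Finset.sum_const, nsmul_eq_mul]
    have := vB_pos n
    gcongr
  linarith

/-- the basic inequality -/
lemma basic {X : Finset (E n)} {κ t : ℝ} (hκ1 : κ < 1) (hκ : -1 < κ) (ht : 0 < t)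
    (htκ : t ^ 2 = (1 - κ) / (1 + κ)) (hX1 : ∀ x ∈ X, ‖x‖ = 1)
    (hX : ∀ x ∈ X, ∀ y ∈ X, x ≠ y → inner ℝ x y ≤ κ) {f : E n → ℕ}
    (hf : ∀ x ∈ X, FewNeighbours X x (f x)) {F : ℝ} (hF : ∑ x ∈ X, (f x : ℝ) ≤ F * X.card)
    {ρ h : ℝ} (hh : 0 < h) (hρ : t < ρ) :
    X.card * (ρ ^ n / (2 * ⌈ρ / h⌉₊) - F * √(ρ ^ 2 - t ^ 2) ^ n) ≤ √(1 + 2 * h + ρ ^ 2) ^ n := by
  have hρ0 : 0 < ρ := ht.trans hρ
  have hV := vB_pos n
  have hK : 0 < ⌈ρ / h⌉₊ := Nat.ceil_pos.2 (by positivity)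
  have hK' : (0 : ℝ) < ⌈ρ / h⌉₊ := by exact_mod_cast hK
  set R := √(1 + 2 * h + ρ ^ 2) with hR
  have hR0 : 0 < R := Real.sqrt_pos.2 (by positivity)
  have h1 : volume.real (⋃ x ∈ X, cellS X ρ h x) = ∑ x ∈ X, volume.real (cellS X ρ h x) := by
    rw [measureReal_def, measure_biUnion_finset₀]
    · rw [ENNReal.toReal_sum]
      · rfl
      · intro x _
        exact cellS_fin X ρ h x
    · intro x hx y hy hxy
      exact cellS_disj hx hy hxy
    · intro x _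
      exact (cellS_meas X ρ h x).nullMeasurableSet
  have h2 : volume.real (⋃ x ∈ X, cellS X ρ h x) ≤ volume.real (ball (0 : E n) R) := by
    have hfin : volume (ball (0 : E n) R) ≠ ⊤ := measure_ball_lt_top.ne
    refine measureReal_mono ?_ hfin
    apply Set.iUnion₂_subset
    intro x hx z hz
    have h3 := hz.1.1
    have h4 := hz.1.2.2
    rw [mem_ball, dist_eq_norm] at h3
    rw [mem_ball_zero_iff]
    have h5 : ‖z‖ ^ 2 < 1 + 2 * h + ρ ^ 2 := by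
      have h6 : z = (z - x) + x := by abel
      have h7 : ‖z‖ ^ 2 = ‖z - x‖ ^ 2 + 2 * inner ℝ (z - x) x + ‖x‖ ^ 2 := by
        conv_lhs => rw [h6]
        exact norm_add_sq_real _ _
      rw [h7, hX1 x hx]
      have := norm_nonneg (z - x)
      nlinarith
    exact (Real.lt_sqrt (norm_nonneg z)).2 h5
  rw [h1, vol_ball _ hR0] at h2
  have h3 : ∀ x ∈ X, vB n * (ρ ^ n / (2 * ⌈ρ / h⌉₊)) - f x * (vB n * √(ρ ^ 2 - t ^ 2) ^ n) ≤
      volume.real (cellS X ρ h x) := by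
    intro x hx
    have h4 := cellS_vol hκ1 hκ ht htκ hX1 hX hx (hf x hx) (h := h) hρ
    have h5 := slab_vol hρ0 hh (hX1 x hx)
    have h6 : vB n * (ρ ^ n / (2 * ⌈ρ / h⌉₊)) ≤ volume.real (slab ρ h x) := by
      rw [mul_div_assoc', div_le_iff₀ (by positivity)]
      linarith
    linarith
  have h4 := (Finset.sum_le_sum h3).trans h2
  rw [Finset.sum_sub_distrib, Finset.sum_const, nsmul_eq_mul, ← Finset.sum_mul] at h4
  have h5 : (∑ x ∈ X, (f x : ℝ)) * (vB n * √(ρ ^ 2 - t ^ 2) ^ n) ≤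
      F * X.card * (vB n * √(ρ ^ 2 - t ^ 2) ^ n) := by gcongr
  have h6 : vB n * (X.card * (ρ ^ n / (2 * ⌈ρ / h⌉₊) - F * √(ρ ^ 2 - t ^ 2) ^ n)) ≤
      vB n * R ^ n := by
    nlinarith
  exact le_of_mul_le_mul_left h6 hV

end Pool.Agent.Q197.VC
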