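import Pool.Agent.Q197.VC.SphCount

/-! Spherical codes with few Voronoi neighbours: the bound. -/

set_option autoImplicit false

open MeasureTheory Metric Filter Topology Set
open Pool.Agent.Q197.NP (E vB vB_pos vol_ball)

namespace Pool.Agent.Q197.VC

variable {n : ℕ}

lemma sqrt_pow_eq {a : ℝ} (ha : 0 ≤ a) (n : ℕ) : √a ^ n = a ^ ((n : ℝ) / 2) := by
  rw [Real.sqrt_eq_rpow, ← Real.rpow_natCast, ← Real.rpow_mul ha]
  congr 1
  ring

theorem spherical (hn : 0 < n) {X : Finset (E n)} {κ : ℝ} (hκ1 : κ < 1) (hκ : -1 < κ)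
    (hX1 : ∀ x ∈ X, ‖x‖ = 1) (hX : ∀ x ∈ X, ∀ y ∈ X, x ≠ y → inner ℝ x y ≤ κ) {f : E n → ℕ}
    (hf : ∀ x ∈ X, FewNeighbours X x (f x)) {F : ℝ} (hF1 : 1 ≤ F)
    (hF : ∑ x ∈ X, (f x : ℝ) ≤ F * X.card) :
    (X.card : ℝ) ≤ 7 * n * (1 + (1 + κ) / (1 - κ) * (1 - (4 * n * F) ^ (-(2 / n : ℝ)))) ^
      ((n : ℝ) / 2) := by
  have hn' : (0 : ℝ) < n := by exact_mod_cast hn
  have hn1 : (1 : ℝ) ≤ n := by exact_mod_cast hn
  have h4 : 1 < 4 * n * F := by nlinarith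
  have h40 : 0 < 4 * n * F := by linarith
  set q : ℝ := (4 * n * F) ^ (-(2 / n : ℝ)) with hq
  have hq0 : 0 < q := Real.rpow_pos_of_pos h40 _
  have hq1 : q < 1 := Real.rpow_lt_one_of_one_lt_of_neg h4 (by
    have : 0 < 2 / (n : ℝ) := by positivity
    linarith)
  have hqn : q ^ ((n : ℝ) / 2) = (4 * n * F)⁻¹ := by
    rw [hq, ← Real.rpow_mul h40.le, ← Real.rpow_neg_one]
    congr 1
    field_simp
  set T : ℝ := (1 + κ) / (1 - κ) with hT
  have hT0 : 0 < T := div_pos (by linarith) (by linarith)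
  set σ : ℝ := T * (1 - q) with hσ
  have hσ0 : 0 < σ := mul_pos hT0 (by linarith)
  set t : ℝ := √((1 - κ) / (1 + κ)) with ht
  have htp : 0 < (1 - κ) / (1 + κ) := div_pos (by linarith) (by linarith)
  have ht0 : 0 < t := Real.sqrt_pos.2 htp
  have ht2 : t ^ 2 = (1 - κ) / (1 + κ) := Real.sq_sqrt htp.le
  have htT : t ^ 2 * T = 1 := by
    rw [ht2, hT]
    have h1 : 1 - κ ≠ 0 := by linarith
    have h2 : 1 + κ ≠ 0 := by linarith
    field_simp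
  set ρ : ℝ := 1 / √σ with hρ
  have hsσ : 0 < √σ := Real.sqrt_pos.2 hσ0
  have hρ0 : 0 < ρ := by positivity
  have hρ2 : ρ ^ 2 * σ = 1 := by
    rw [hρ, div_pow, Real.sq_sqrt hσ0.le]
    field_simp
  have htσ : t ^ 2 * σ = 1 - q := by rw [hσ, ← mul_assoc, htT, one_mul]
  have htρ : t < ρ := by
    apply lt_of_pow_lt_pow_left₀ 2 hρ0.le
    have : t ^ 2 * σ < ρ ^ 2 * σ := by rw [htσ, hρ2]; linarith
    exact lt_of_mul_lt_mul_right this hσ0.le
  have h1 := basic hκ1 hκ ht0 ht2 hX1 hX hf hF (h := ρ / n) (by positivity) htρ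
  have hceil : ⌈ρ / (ρ / n)⌉₊ = n := by
    have : ρ / (ρ / n) = (n : ℝ) := by field_simp
    rw [this, Nat.ceil_natCast]
  rw [hceil] at h1
  have h2 : √(ρ ^ 2 - t ^ 2) ^ n = ρ ^ n * (4 * n * F)⁻¹ := by
    have h3 : ρ ^ 2 - t ^ 2 = ρ ^ 2 * q := by
      have h5 : t ^ 2 = ρ ^ 2 * (t ^ 2 * σ) := by
        calc t ^ 2 = t ^ 2 * (ρ ^ 2 * σ) := by rw [hρ2, mul_one]
          _ = _ := by ring
      rw [h5, htσ]
      ring
    rw [h3, Real.sqrt_mul (sq_nonneg ρ), Real.sqrt_sq hρ0.le, mul_pow, sqrt_pow_eq hq0.le, hqn]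
  have h3 : √(1 + 2 * (ρ / n) + ρ ^ 2) ^ n ≤ 7 / 4 * √(1 + ρ ^ 2) ^ n := by
    have h5 : 1 + 2 * (ρ / n) + ρ ^ 2 ≤ (1 + ρ ^ 2) * (1 + 1 / n) := by
      have h6 : 2 * ρ ≤ 1 + ρ ^ 2 := by nlinarith [sq_nonneg (ρ - 1)]
      have h7 : 2 * (ρ / n) ≤ (1 + ρ ^ 2) * (1 / n) := by
        calc 2 * (ρ / n) = (2 * ρ) * (1 / n) := by ring
          _ ≤ _ := by gcongr
      nlinarith
    have h6 : √(1 + 2 * (ρ / n) + ρ ^ 2) ^ n ≤ √(1 + ρ ^ 2) ^ n * √(1 + 1 / n) ^ n := by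
      rw [← mul_pow, ← Real.sqrt_mul (by positivity)]
      gcongr
    have h7 : √(1 + 1 / n) ^ n ≤ 7 / 4 := by
      have h8 : (√(1 + 1 / n) ^ n) ^ 2 ≤ (7 / 4) ^ 2 := by
        rw [← pow_mul, mul_comm n 2, pow_mul, Real.sq_sqrt (by positivity)]
        have h9 : (1 + 1 / (n : ℝ)) ^ n ≤ Real.exp 1 := by
          have h10 : 1 + 1 / (n : ℝ) ≤ Real.exp (1 / n) := by
            have := Real.add_one_le_exp (1 / (n : ℝ))
            linarith
          calc (1 + 1 / (n : ℝ)) ^ n ≤ Real.exp (1 / n) ^ n := by gcongr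
            _ = Real.exp 1 := by
              rw [← Real.exp_nat_mul]
              congr 1
              field_simp
        have h11 := Real.exp_one_lt_d9
        have h12 : (2.7182818286 : ℝ) < (7 / 4) ^ 2 := by norm_num
        linarith
      exact (sq_le_sq₀ (by positivity) (by norm_num)).1 h8
    calc _ ≤ _ := h6
      _ ≤ √(1 + ρ ^ 2) ^ n * (7 / 4) := by gcongr
      _ = _ := by ring
  have h5 : √(1 + ρ ^ 2) ^ n = ρ ^ n * (1 + σ) ^ ((n : ℝ) / 2) := by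
    have h6 : 1 + ρ ^ 2 = ρ ^ 2 * (1 + σ) := by rw [mul_add, hρ2]; ring
    rw [h6, Real.sqrt_mul (sq_nonneg ρ), Real.sqrt_sq hρ0.le, mul_pow,
      sqrt_pow_eq (by positivity)]
  rw [h2] at h1
  rw [h5] at h3
  have h6 : (X.card : ℝ) * (ρ ^ n / (2 * n) - F * (ρ ^ n * (4 * n * F)⁻¹)) =
      ρ ^ n * (X.card / (4 * n)) := by
    have : F ≠ 0 := by linarith
    field_simp
    ring
  rw [h6] at h1
  have h7 : ρ ^ n * (X.card / (4 * n)) ≤ ρ ^ n * (7 / 4 * (1 + σ) ^ ((n : ℝ) / 2)) := by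
    refine (h1.trans h3).trans (le_of_eq ?_)
    ring
  have h8 := le_of_mul_le_mul_left h7 (pow_pos hρ0 n)
  rw [div_le_iff₀ (by positivity)] at h8
  calc (X.card : ℝ) ≤ _ := h8
    _ = _ := by ring

/-- the inverse form -/
theorem neighbours (hn : 0 < n) {X : Finset (E n)} {κ : ℝ} (hκ1 : κ < 1) (hκ : -1 < κ)
    (hX1 : ∀ x ∈ X, ‖x‖ = 1) (hX : ∀ x ∈ X, ∀ y ∈ X, x ≠ y → inner ℝ x y ≤ κ) {f : E n → ℕ}
    (hf : ∀ x ∈ X, FewNeighbours X x (f x)) {F : ℝ} (hF1 : 1 ≤ F)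
    (hF : ∑ x ∈ X, (f x : ℝ) ≤ F * X.card) {σ : ℝ}
    (hc : 7 * n * (1 + σ) ^ ((n : ℝ) / 2) ≤ X.card) :
    (1 - σ * ((1 - κ) / (1 + κ))) ^ (-((n : ℝ) / 2)) / (4 * n) ≤ F := by
  have hn' : (0 : ℝ) < n := by exact_mod_cast hn
  have hn1 : (1 : ℝ) ≤ n := by exact_mod_cast hn
  have h4 : 1 < 4 * n * F := by nlinarith
  have h40 : 0 < 4 * n * F := by linarith
  have h1 := hc.trans (spherical hn hκ1 hκ hX1 hX hf hF1 hF)
  set q : ℝ := (4 * n * F) ^ (-(2 / n : ℝ)) with hq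
  have hq0 : 0 < q := Real.rpow_pos_of_pos h40 _
  have hq1 : q < 1 := Real.rpow_lt_one_of_one_lt_of_neg h4 (by
    have : 0 < 2 / (n : ℝ) := by positivity
    linarith)
  have hqn : q ^ (-((n : ℝ) / 2)) = 4 * n * F := by
    rw [hq, ← Real.rpow_mul h40.le]
    have : -(2 / (n : ℝ)) * -((n : ℝ) / 2) = 1 := by field_simp
    rw [this, Real.rpow_one]
  set T : ℝ := (1 + κ) / (1 - κ) with hT
  have hT0 : 0 < T := div_pos (by linarith) (by linarith)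
  have hTi : (1 - κ) / (1 + κ) = T⁻¹ := by rw [hT, inv_div]
  rw [hTi]
  have h2 : (1 + σ) ^ ((n : ℝ) / 2) ≤ (1 + T * (1 - q)) ^ ((n : ℝ) / 2) :=
    le_of_mul_le_mul_left h1 (by positivity)
  have hpos : 0 < 1 + T * (1 - q) := by
    have : 0 < T * (1 - q) := mul_pos hT0 (by linarith)
    linarith
  have h3 : 1 + σ ≤ 1 + T * (1 - q) := by
    by_contra hcon
    push Not at hcon
    have := Real.rpow_lt_rpow hpos.le hcon (show 0 < (n : ℝ) / 2 by positivity)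
    linarith
  have h5 : q ≤ 1 - σ * T⁻¹ := by
    have h6 : σ * T⁻¹ ≤ 1 - q := by
      rw [← div_eq_mul_inv, div_le_iff₀ hT0]
      linarith
    linarith
  have h6 : (1 - σ * T⁻¹) ^ (-((n : ℝ) / 2)) ≤ q ^ (-((n : ℝ) / 2)) :=
    Real.rpow_le_rpow_of_nonpos hq0 h5 (by
      have : 0 < (n : ℝ) / 2 := by positivity
      linarith)
  rw [hqn] at h6
  rw [div_le_iff₀ (by positivity)]
  linarith

/-- saturated kissing configurations are large -/
lemma saturated (hn : 0 < n) {X : Finset (E n)}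
    (hsat : ∀ z : E n, ‖z‖ = 1 → ∃ x ∈ X, (1 / 2 : ℝ) ≤ inner ℝ z x) (hX1 : ∀ x ∈ X, ‖x‖ = 1) :
    (4 / 3 : ℝ) ^ ((n : ℝ) / 2) ≤ X.card := by
  have hV := vB_pos n
  set s : ℝ := √(3 / 4) with hs
  have hs0 : 0 < s := Real.sqrt_pos.2 (by norm_num)
  have hs2 : s ^ 2 = 3 / 4 := Real.sq_sqrt (by norm_num)
  have hsub : ball (0 : E n) 1 ⊆ {0} ∪ ⋃ x ∈ X, closedBall ((1 / 2 : ℝ) • x) s := by
    intro z hz
    rw [mem_ball_zero_iff] at hz
    by_cases h0 : z = 0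
    · left; exact h0
    · right
      have hz0 : 0 < ‖z‖ := norm_pos_iff.2 h0
      obtain ⟨x, hx, hzx⟩ := hsat (‖z‖⁻¹ • z) (by
        rw [norm_smul, norm_inv, norm_norm]
        field_simp)
      rw [inner_smul_left] at hzx
      simp only [conj_trivial] at hzx
      rw [Set.mem_iUnion₂]
      refine ⟨x, hx, ?_⟩
      rw [mem_closedBall, dist_eq_norm]
      have h1 : ‖z‖ / 2 ≤ inner ℝ z x := by
        calc ‖z‖ / 2 = ‖z‖ * (1 / 2) := by ring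
          _ ≤ ‖z‖ * (‖z‖⁻¹ * inner ℝ z x) := by gcongr
          _ = _ := by field_simp
      have h2 : ‖z - (1 / 2 : ℝ) • x‖ ^ 2 ≤ s ^ 2 := by
        rw [norm_sub_sq_real, inner_smul_right, norm_smul, hX1 x hx, hs2, Real.norm_eq_abs,
          abs_of_pos (by norm_num : (0 : ℝ) < 1 / 2)]
        nlinarith
      exact (sq_le_sq₀ (norm_nonneg _) hs0.le).1 h2
  have hfin2 : volume (⋃ x ∈ X, closedBall ((1 / 2 : ℝ) • x) s) ≠ ⊤ := by
    refine (lt_of_le_of_lt (measure_biUnion_finset_le _ _) ?_).ne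
    exact ENNReal.sum_lt_top.2 fun v _ => measure_closedBall_lt_top
  · have hfin1 : volume ({0} : Set (E n)) = 0 := by
      have : Nonempty (Fin n) := ⟨⟨0, hn⟩⟩
      exact measure_singleton 0
    have h1 : volume.real (ball (0 : E n) 1) ≤ volume.real (⋃ x ∈ X,
        closedBall ((1 / 2 : ℝ) • x) s) := by
      rw [measureReal_def, measureReal_def]
      apply ENNReal.toReal_mono hfin2
      calc volume (ball (0 : E n) 1) ≤ _ := measure_mono hsub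
        _ ≤ _ := measure_union_le _ _
        _ = _ := by rw [hfin1, zero_add]
    have h2 : volume.real (⋃ x ∈ X, closedBall ((1 / 2 : ℝ) • x) s) ≤
        X.card * (vB n * s ^ n) := by
      refine (measureReal_biUnion_finset_le _ _).trans ?_
      have h3 : ∀ x ∈ X, volume.real (closedBall ((1 / 2 : ℝ) • x) s) = vB n * s ^ n := by
        intro y _
        rw [measureReal_def, Measure.addHaar_closedBall _ _ hs0.le, ENNReal.toReal_mul,
          ENNReal.toReal_ofReal (by positivity), ← measureReal_def]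
        simp [vB, mul_comm]
      rw [Finset.sum_congr rfl h3, Finset.sum_const, nsmul_eq_mul]
    rw [vol_ball _ one_pos, one_pow, mul_one] at h1
    have h3 : vB n * 1 ≤ vB n * (X.card * s ^ n) := by
      rw [mul_one]
      refine (h1.trans h2).trans (le_of_eq ?_)
      ring
    have h4 := le_of_mul_le_mul_left h3 hV
    rw [hs, sqrt_pow_eq (by norm_num)] at h4
    have h5 : (4 / 3 : ℝ) ^ ((n : ℝ) / 2) * (3 / 4 : ℝ) ^ ((n : ℝ) / 2) = 1 := by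
      rw [← Real.mul_rpow (by norm_num) (by norm_num)]
      norm_num
    have h6 : (0 : ℝ) < (4 / 3 : ℝ) ^ ((n : ℝ) / 2) := by positivity
    nlinarith

theorem saturated_neighbours (hn : 0 < n) {X : Finset (E n)} (hX1 : ∀ x ∈ X, ‖x‖ = 1)
    (hX : ∀ x ∈ X, ∀ y ∈ X, x ≠ y → inner ℝ x y ≤ 1 / 2) {f : E n → ℕ}
    (hf : ∀ x ∈ X, FewNeighbours X x (f x)) {F : ℝ} (hF1 : 1 ≤ F)
    (hF : ∑ x ∈ X, (f x : ℝ) ≤ F * X.card)
    (hsat : ∀ z : E n, ‖z‖ = 1 → ∃ x ∈ X, (1 / 2 : ℝ) ≤ inner ℝ z x) :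
    (9 / 8 : ℝ) ^ ((n : ℝ) / 2) / (4 * n * √(7 * n)) ≤ F := by
  have hn' : (0 : ℝ) < n := by exact_mod_cast hn
  have hn1 : (1 : ℝ) ≤ n := by exact_mod_cast hn
  have h4 : 1 < 4 * n * F := by nlinarith
  have h40 : 0 < 4 * n * F := by linarith
  have h1 := (saturated hn hsat hX1).trans (spherical hn (by norm_num) (by norm_num) hX1 hX hf
    hF1 hF)
  set q : ℝ := (4 * n * F) ^ (-(2 / n : ℝ)) with hq
  have hq0 : 0 < q := Real.rpow_pos_of_pos h40 _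
  have hq1 : q < 1 := Real.rpow_lt_one_of_one_lt_of_neg h4 (by
    have : 0 < 2 / (n : ℝ) := by positivity
    linarith)
  have hqn : q ^ ((n : ℝ) / 2) = (4 * n * F)⁻¹ := by
    rw [hq, ← Real.rpow_mul h40.le, ← Real.rpow_neg_one]
    congr 1
    field_simp
  have hT : (1 : ℝ) + (1 + 1 / 2) / (1 - 1 / 2) * (1 - q) = 4 - 3 * q := by norm_num; ring
  rw [hT] at h1
  have hA : 0 < 4 - 3 * q := by linarith
  have hy0 : 0 < 7 * (n : ℝ) := by positivity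
  set y : ℝ := 2 / n * Real.log (7 * n) with hy
  have h2 : 4 / 3 * Real.exp (-y) ≤ 4 - 3 * q := by
    have h3 : (4 / 3 * Real.exp (-y)) ^ ((n : ℝ) / 2) ≤ (4 - 3 * q) ^ ((n : ℝ) / 2) := by
      rw [Real.mul_rpow (by norm_num) (Real.exp_pos _).le, ← Real.exp_mul]
      have h5 : -y * ((n : ℝ) / 2) = -Real.log (7 * n) := by rw [hy]; field_simp
      rw [h5, Real.exp_neg, Real.exp_log hy0]
      rw [← div_eq_mul_inv, div_le_iff₀ hy0]
      linarith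
    by_contra hcon
    push Not at hcon
    have := Real.rpow_lt_rpow hA.le hcon (show 0 < (n : ℝ) / 2 by positivity)
    linarith
  have h3 : q ≤ 8 / 9 * Real.exp (y / 2) := by
    have h5 := Real.add_one_le_exp (-y)
    have h6 := Real.add_one_le_exp (y / 2)
    nlinarith
  have h5 : q ^ ((n : ℝ) / 2) ≤ (8 / 9 * Real.exp (y / 2)) ^ ((n : ℝ) / 2) :=
    Real.rpow_le_rpow hq0.le h3 (by positivity)
  rw [hqn, Real.mul_rpow (by norm_num) (Real.exp_pos _).le, ← Real.exp_mul] at h5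
  have h6 : Real.exp (y / 2 * ((n : ℝ) / 2)) = √(7 * n) := by
    have : y / 2 * ((n : ℝ) / 2) = Real.log (7 * n) * (1 / 2) := by rw [hy]; field_simp
    rw [this, Real.exp_mul, Real.exp_log hy0, Real.sqrt_eq_rpow]
  rw [h6] at h5
  have h7 : (9 / 8 : ℝ) ^ ((n : ℝ) / 2) * (8 / 9 : ℝ) ^ ((n : ℝ) / 2) = 1 := by
    rw [← Real.mul_rpow (by norm_num) (by norm_num)]
    norm_num
  have h8 : (0 : ℝ) < (9 / 8 : ℝ) ^ ((n : ℝ) / 2) := by positivity
  have hs : 0 < √(7 * (n : ℝ)) := Real.sqrt_pos.2 hy0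
  rw [div_le_iff₀ (by positivity)]
  have h9 : 1 ≤ (8 / 9 : ℝ) ^ ((n : ℝ) / 2) * √(7 * n) * (4 * n * F) := by
    calc (1 : ℝ) = (4 * n * F)⁻¹ * (4 * n * F) := by field_simp
      _ ≤ _ := by gcongr
  calc (9 / 8 : ℝ) ^ ((n : ℝ) / 2) = (9 / 8 : ℝ) ^ ((n : ℝ) / 2) * 1 := by ring
    _ ≤ (9 / 8 : ℝ) ^ ((n : ℝ) / 2) * ((8 / 9 : ℝ) ^ ((n : ℝ) / 2) * √(7 * n) *
      (4 * n * F)) := by gcongr
    _ = ((9 / 8 : ℝ) ^ ((n : ℝ) / 2) * (8 / 9 : ℝ) ^ ((n : ℝ) / 2)) * (√(7 * n) *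
      (4 * n * F)) := by ring
    _ = F * (4 * n * √(7 * n)) := by rw [h7]; ring

end Pool.Agent.Q197.VC
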